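import Pool.Agent.P8H18.RR.Fin4

/-!
Project DS (helper18), package EX2: all subsets with `s` elements form a regular connected family.
-/

set_option autoImplicit false

namespace Pool.Agent.P8H96.DS

open Finset Pool.Agent.P8H18.RR

/-- **EX2.** -/
theorem ex2 : ∀ s : ℕ, 2 ≤ s → s ≤ 100 →
    Pool.Agent.P8H18.DS.Con s ((Finset.univ : Finset (Fin 10 × Fin 10)).powersetCard s) := by
  intro s h2 h100
  have hcard : (Finset.univ : Finset (Fin 10 × Fin 10)).card = 100 := by
    rw [Finset.card_univ, Fintype.card_prod, Fintype.card_fin]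
  refine ⟨?_, ?_, ?_, ?_⟩
  · rw [Finset.powersetCard_nonempty, hcard]
    exact h100
  · intro R hR
    exact (Finset.mem_powersetCard.1 hR).2
  · intro w w'
    refine Finset.card_bij (fun R _ => R.map (Equiv.swap w w').toEmbedding) ?_ ?_ ?_
    · intro R hR
      rw [Finset.mem_filter, Finset.mem_powersetCard] at hR ⊢
      refine ⟨⟨Finset.subset_univ _, ?_⟩, ?_⟩
      · rw [Finset.card_map]
        exact hR.1.2
      · rw [Finset.mem_map]
        exact ⟨w, hR.2, Equiv.swap_apply_left w w'⟩
    · intro R _ R' _ h
      exact Finset.map_injective _ h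
    · intro R hR
      rw [Finset.mem_filter, Finset.mem_powersetCard] at hR
      refine ⟨R.map (Equiv.swap w w').toEmbedding, ?_, ?_⟩
      · rw [Finset.mem_filter, Finset.mem_powersetCard]
        refine ⟨⟨Finset.subset_univ _, ?_⟩, ?_⟩
        · rw [Finset.card_map]
          exact hR.1.2
        · rw [Finset.mem_map]
          exact ⟨w', hR.2, Equiv.swap_apply_right w w'⟩
      · ext x
        simp only [Finset.mem_map, Equiv.coe_toEmbedding, exists_exists_and_eq_and, Equiv.swap_apply_self]
        constructor
        · rintro ⟨y, hy, rfl⟩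
          exact hy
        · intro hx
          exact ⟨x, hx, rfl⟩
  · intro A hA
    by_contra hne
    push Not at hne
    obtain ⟨hA0, hA1⟩ := hne
    obtain ⟨a, ha⟩ : A.Nonempty := hA0
    obtain ⟨b, hb⟩ : ∃ b, b ∉ A := by
      by_contra h
      push Not at h
      exact hA1 (Finset.eq_univ_iff_forall.2 h)
    have hab : ({a, b} : Finset (Fin 10 × Fin 10)).card ≤ s := (Finset.card_le_two).trans h2
    obtain ⟨R, hR1, hR2, hR3⟩ := Finset.exists_subsuperset_card_eq (Finset.subset_univ ({a, b} : Finset (Fin 10 × Fin 10)))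
      hab (by rw [hcard]; exact h100)
    have haR : a ∈ R := hR1 (by simp)
    have hbR : b ∈ R := hR1 (by simp)
    rcases hA R (Finset.mem_powersetCard.2 ⟨hR2, hR3⟩) with h | h
    · exact hb (h hbR)
    · exact (Finset.disjoint_left.1 h haR) ha

end Pool.Agent.P8H96.DS
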